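import Pool.Agent.Work.MP_4dbef5_lc.Glue
import Pool.Agent.Work.MP_4dbef5_lc.Lower

/-!
# The largest concept classes of no-clash teaching dimension two
-/

namespace Pool.Agent.Results.MP_4dbef5_lc.ExactTwo

/-- A concept over `[n]`, given by its indicator function. -/
abbrev Concept (n : ℕ) := Fin n → Bool

/-- `T` is a no-clash teacher for the concept class `𝒞`: distinct concepts of `𝒞` differ somewhere
on the union of the two sets assigned to them. -/
def IsNCTeacher {n : ℕ} (𝒞 : Finset (Concept n)) (T : Concept n → Finset (Fin n)) : Prop :=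
  ∀ C ∈ 𝒞, ∀ C' ∈ 𝒞, C ≠ C' → ∃ x ∈ T C ∪ T C', C x ≠ C' x

/-- The no-clash teaching dimension: the least `k` such that some no-clash teacher assigns sets of
size at most `k` to all concepts of the class. -/
noncomputable def NCTD {n : ℕ} (𝒞 : Finset (Concept n)) : ℕ :=
  sInf {k | ∃ T : Concept n → Finset (Fin n), IsNCTeacher 𝒞 T ∧ ∀ C ∈ 𝒞, (T C).card ≤ k}

open Pool.Agent.Work.MP_4dbef5_lc Pool.Agent.Results.MP_4dbef5_lc

lemma lower_class {n : ℕ} (hn : 3 ≤ n) : ∃ 𝒞 : Finset (Concept n),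
    TwoSidedBounds.Teachable 𝒞 2 ∧ 𝒞.card = n * (9 * n - 4) / 8 := by
  classical
  let I : Type := (y : Fin n) × (x : Fin y.1) × Fin (Lower.wt (Lower.blk x.1) (Lower.blk y.1))
  obtain ⟨𝒞, h1, h2⟩ := TwoSidedBounds.teachable_of_family (n := n) (d := 2) (I := I)
    (fun i z => Lower.val i.2.1.1 i.1.1 i.2.2.1 z.1)
    (fun i => {⟨i.2.1.1, i.2.1.2.trans i.1.2⟩, i.1})
    (fun i => Finset.card_le_two)
    (by
      intro i j hij
      obtain ⟨z, hz, hzz⟩ := Lower.val_differ i.2.1.2 j.2.1.2 i.2.2.2 j.2.2.2 (by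
        rintro ⟨e1, e2, e3⟩
        apply hij
        obtain ⟨⟨y, hy⟩, ⟨x, hx⟩, ⟨k, hk⟩⟩ := i
        obtain ⟨⟨y', hy'⟩, ⟨x', hx'⟩, ⟨k', hk'⟩⟩ := j
        simp only at e1 e2 e3
        subst e1 e2 e3
        rfl)
      rcases hz with rfl | rfl | rfl | rfl
      · exact ⟨⟨i.2.1.1, i.2.1.2.trans i.1.2⟩, by simp, hzz⟩
      · exact ⟨i.1, by simp, hzz⟩
      · exact ⟨⟨j.2.1.1, j.2.1.2.trans j.1.2⟩, by simp, hzz⟩
      · exact ⟨j.1, by simp, hzz⟩)
  refine ⟨𝒞, h1, ?_⟩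
  rw [h2, ← Lower.cnt_eq n (by omega)]
  have : Fintype.card I = ∑ y : Fin n, ∑ x : Fin y.1, Lower.wt (Lower.blk x.1) (Lower.blk y.1) := by
    rw [Fintype.card_sigma]
    refine Finset.sum_congr rfl fun y _ => ?_
    rw [Fintype.card_sigma]
    refine Finset.sum_congr rfl fun x _ => ?_
    rw [Fintype.card_fin]
  rw [this]
  unfold Lower.cnt
  rw [← Fin.sum_univ_eq_sum_range (fun y => ∑ x ∈ Finset.range y,
    Lower.wt (Lower.blk x) (Lower.blk y)) n]
  refine Finset.sum_congr rfl fun y _ => ?_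
  rw [← Fin.sum_univ_eq_sum_range (fun x => Lower.wt (Lower.blk x) (Lower.blk y.1)) y.1]

/-- **Exact value of `M_NC(n, 2)`.**  For every `n ≥ 3` the largest cardinality of a concept class
over `[n]` of no-clash teaching dimension exactly two is `⌊n (9 n - 4) / 8⌋`. -/
theorem result (n : ℕ) (hn : 3 ≤ n) :
    IsGreatest {k | ∃ 𝒞 : Finset (Concept n), NCTD 𝒞 = 2 ∧ 𝒞.card = k} (n * (9 * n - 4) / 8) := by
  obtain ⟨hgr, hmax, 𝒟, h𝒟, hc𝒟⟩ := TwoSidedBounds.exists_max (n := n) (d := 2) (by norm_num) (by omega)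
  have h1 : TwoSidedBounds.MNC n 2 = n * (9 * n - 4) / 8 := by
    apply le_antisymm
    · rw [← hc𝒟]
      have := Glue.upper_class hn h𝒟
      omega
    · obtain ⟨𝒞, h𝒞, hc⟩ := lower_class hn
      rw [← hc]
      exact hmax 𝒞 h𝒞
  rw [← h1]
  exact hgr

end Pool.Agent.Results.MP_4dbef5_lc.ExactTwo
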