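import Mathlib

/-!
# Two-sided bounds for the largest concept class of given no-clash teaching dimension
-/

namespace Pool.Agent.Results.MP_4dbef5_lc.TwoSidedBounds

/-- A concept over `[n]`, given by its indicator function. -/
abbrev Concept (n : ℕ) := Fin n → Bool

/-- `T` is a no-clash teacher for the concept class `𝒞`: distinct concepts of `𝒞` differ somewhere
on the union of the two sets assigned to them. -/
def IsNCTeacher {n : ℕ} (𝒞 : Finset (Concept n)) (T : Concept n → Finset (Fin n)) : Prop :=
  ∀ C ∈ 𝒞, ∀ C' ∈ 𝒞, C ≠ C' → ∃ x ∈ T C ∪ T C', C x ≠ C' x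

/-- The no-clash teaching dimension: the least `k` such that some no-clash teacher assigns sets of
size at most `k` to all concepts of the class. -/
noncomputable def NCTD {n : ℕ} (𝒞 : Finset (Concept n)) : ℕ :=
  sInf {k | ∃ T : Concept n → Finset (Fin n), IsNCTeacher 𝒞 T ∧ ∀ C ∈ 𝒞, (T C).card ≤ k}

/-- Some no-clash teacher assigns sets of size at most `k`. -/
def Teachable {n : ℕ} (𝒞 : Finset (Concept n)) (k : ℕ) : Prop :=
  ∃ T : Concept n → Finset (Fin n), IsNCTeacher 𝒞 T ∧ ∀ C ∈ 𝒞, (T C).card ≤ k

lemma teachable_univ {n : ℕ} (𝒞 : Finset (Concept n)) : Teachable 𝒞 n := by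
  refine ⟨fun _ => Finset.univ, ?_, ?_⟩
  · intro C _ C' _ hne
    obtain ⟨x, hx⟩ := Function.ne_iff.mp hne
    exact ⟨x, by simp, hx⟩
  · intro C _
    simp

lemma Teachable.mono {n : ℕ} {𝒞 : Finset (Concept n)} {k l : ℕ} (h : Teachable 𝒞 k)
    (hkl : k ≤ l) : Teachable 𝒞 l := by
  obtain ⟨T, hT, hc⟩ := h
  exact ⟨T, hT, fun C hC => (hc C hC).trans hkl⟩

lemma Teachable.subset {n : ℕ} {𝒞 𝒟 : Finset (Concept n)} {k : ℕ} (h : Teachable 𝒞 k)
    (hs : 𝒟 ⊆ 𝒞) : Teachable 𝒟 k := by
  obtain ⟨T, hT, hc⟩ := h
  exact ⟨T, fun C hC C' hC' => hT C (hs hC) C' (hs hC'), fun C hC => hc C (hs hC)⟩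

lemma nctd_le_iff {n : ℕ} (𝒞 : Finset (Concept n)) (k : ℕ) : NCTD 𝒞 ≤ k ↔ Teachable 𝒞 k := by
  constructor
  · intro h
    have hne : {k | Teachable 𝒞 k}.Nonempty := ⟨n, teachable_univ 𝒞⟩
    have : Teachable 𝒞 (NCTD 𝒞) := Nat.sInf_mem hne
    exact this.mono h
  · intro h
    exact Nat.sInf_le h

/-- Adding one concept raises the dimension by at most one. -/
lemma Teachable.addOne {n : ℕ} {𝒞 : Finset (Concept n)} {k : ℕ} (h : Teachable 𝒞 k)
    (D : Concept n) : Teachable (insert D 𝒞) (k + 1) := by
  classical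
  obtain ⟨T, hT, hc⟩ := h
  have key : ∀ C : Concept n, C ≠ D → ∃ x, C x ≠ D x := fun C hC => Function.ne_iff.mp hC
  choose w hw using key
  refine ⟨fun C => if h : C = D then ∅ else insert (w C h) (T C), ?_, ?_⟩
  · intro C hC C' hC' hne
    by_cases h1 : C = D
    · have h2 : C' ≠ D := fun h => hne (h1.trans h.symm)
      refine ⟨w C' h2, ?_, ?_⟩
      · simp [h1, h2]
      · rw [h1]
        exact (hw C' h2).symm
    · by_cases h2 : C' = D
      · refine ⟨w C h1, ?_, ?_⟩
        · simp [h1, h2]
        · rw [h2]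
          exact hw C h1
      · have hC1 : C ∈ 𝒞 := by
          rcases Finset.mem_insert.mp hC with h | h
          · exact absurd h h1
          · exact h
        have hC2 : C' ∈ 𝒞 := by
          rcases Finset.mem_insert.mp hC' with h | h
          · exact absurd h h2
          · exact h
        obtain ⟨x, hx, hxx⟩ := hT C hC1 C' hC2 hne
        refine ⟨x, ?_, hxx⟩
        rw [Finset.mem_union] at hx ⊢
        rcases hx with hx | hx
        · left; simp [h1, hx]
        · right; simp [h2, hx]
  · intro C hC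
    by_cases h1 : C = D
    · simp [h1]
    · have hC1 : C ∈ 𝒞 := by
        rcases Finset.mem_insert.mp hC with h | h
        · exact absurd h h1
        · exact h
      simp only [h1, dite_false]
      exact (Finset.card_insert_le _ _).trans (Nat.succ_le_succ (hc C hC1))

/-- The full cube has dimension at least `n / 2`. -/
lemma cube_lower {n k : ℕ} (h : Teachable (Finset.univ : Finset (Concept n)) k) : n ≤ 2 * k := by
  classical
  obtain ⟨T, hT, hc⟩ := h
  -- flip one coordinate
  let fl : Fin n → Concept n → Concept n := fun x C => Function.update C x (!(C x))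
  have hfl : ∀ x C, fl x (fl x C) = C := by
    intro x C
    funext y
    by_cases hy : y = x
    · subst hy; simp [fl]
    · simp [fl, hy]
  have hmem : ∀ x C, x ∈ T C ∨ x ∈ T (fl x C) := by
    intro x C
    have hne : C ≠ fl x C := by
      intro h
      have := congrFun h x
      simp [fl] at this
    obtain ⟨y, hy, hyy⟩ := hT C (Finset.mem_univ _) (fl x C) (Finset.mem_univ _) hne
    have : y = x := by
      by_contra hyx
      apply hyy
      simp [fl, hyx]
    subst this
    exact Finset.mem_union.mp hy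
  -- count pairs
  have h1 : ∀ x : Fin n, 2 ^ n ≤ 2 * (Finset.univ.filter fun C : Concept n => x ∈ T C).card := by
    intro x
    have hcov : (Finset.univ : Finset (Concept n)) ⊆
        (Finset.univ.filter fun C : Concept n => x ∈ T C) ∪
        (Finset.univ.filter fun C : Concept n => x ∈ T C).image (fl x) := by
      intro C _
      rw [Finset.mem_union]
      rcases hmem x C with h | h
      · left; simp [h]
      · right
        rw [Finset.mem_image]
        exact ⟨fl x C, by simp [h], hfl x C⟩
    have := Finset.card_le_card hcov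
    have h2 := Finset.card_union_le (Finset.univ.filter fun C : Concept n => x ∈ T C)
      ((Finset.univ.filter fun C : Concept n => x ∈ T C).image (fl x))
    have h3 : ((Finset.univ.filter fun C : Concept n => x ∈ T C).image (fl x)).card ≤
      (Finset.univ.filter fun C : Concept n => x ∈ T C).card := Finset.card_image_le
    have h4 : (Finset.univ : Finset (Concept n)).card = 2 ^ n := by simp
    omega
  have h2 : ∑ x : Fin n, (Finset.univ.filter fun C : Concept n => x ∈ T C).card =
      ∑ C : Concept n, (T C).card := by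
    simp only [Finset.card_eq_sum_ones, Finset.sum_filter]
    rw [Finset.sum_comm]
    refine Finset.sum_congr rfl fun C _ => ?_
    rw [← Finset.sum_filter]
    simp
  have h3 : ∑ C : Concept n, (T C).card ≤ 2 ^ n * k := by
    calc ∑ C : Concept n, (T C).card ≤ ∑ _C : Concept n, k :=
          Finset.sum_le_sum fun C hC => hc C hC
      _ = 2 ^ n * k := by simp
  have h4 : n * 2 ^ n ≤ 2 * ∑ x : Fin n, (Finset.univ.filter fun C : Concept n => x ∈ T C).card := by
    rw [Finset.mul_sum]
    calc n * 2 ^ n = ∑ _x : Fin n, 2 ^ n := by simp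
      _ ≤ _ := Finset.sum_le_sum fun x _ => h1 x
  have h5 : n * 2 ^ n ≤ (2 * k) * 2 ^ n := by
    rw [h2] at h4
    nlinarith
  exact Nat.le_of_mul_le_mul_right h5 (by positivity)

/-- The full cube has dimension at most `(n + 1) / 2`. -/
lemma cube_upper (n : ℕ) : Teachable (Finset.univ : Finset (Concept n)) ((n + 1) / 2) := by
  classical
  -- `x` is taught iff it is the even member of a pair on which the concept is constant, or the odd
  -- member of a pair on which it is not, or the unpaired last element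
  let P : Concept n → Fin n → Prop := fun C x =>
    if x.1 % 2 = 0 then (∀ y : Fin n, y.1 = x.1 + 1 → C x = C y)
    else (∀ y : Fin n, y.1 + 1 = x.1 → C x ≠ C y)
  refine ⟨fun C => Finset.univ.filter (P C), ?_, ?_⟩
  · intro C _ C' _ hne
    obtain ⟨x, hx⟩ := Function.ne_iff.mp hne
    -- the pair `a, b` of `x`
    by_cases hev : x.1 % 2 = 0
    · by_cases hlast : x.1 + 1 < n
      · let y : Fin n := ⟨x.1 + 1, hlast⟩
        by_cases h1 : C x = C y
        · refine ⟨x, ?_, hx⟩
          rw [Finset.mem_union]; left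
          simp only [Finset.mem_filter, Finset.mem_univ, true_and, P, hev, if_true]
          intro z hz
          have : z = y := Fin.ext hz
          rw [this]; exact h1
        · by_cases h2 : C' x = C' y
          · refine ⟨x, ?_, hx⟩
            rw [Finset.mem_union]; right
            simp only [Finset.mem_filter, Finset.mem_univ, true_and, P, hev, if_true]
            intro z hz
            have : z = y := Fin.ext hz
            rw [this]; exact h2
          · refine ⟨y, ?_, ?_⟩
            · rw [Finset.mem_union]; left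
              have hodd : ¬ (y.1 % 2 = 0) := by simp only [y]; omega
              simp only [Finset.mem_filter, Finset.mem_univ, true_and, P, hodd, if_false]
              intro z hz
              have : z = x := Fin.ext (by simp only [y] at hz; omega)
              rw [this]; exact fun h => h1 h.symm
            · intro h
              apply hx
              revert h1 h2 h
              cases C x <;> cases C y <;> cases C' x <;> cases C' y <;> simp
      · refine ⟨x, ?_, hx⟩
        rw [Finset.mem_union]; left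
        simp only [Finset.mem_filter, Finset.mem_univ, true_and, P, hev, if_true]
        intro z hz
        exact absurd z.2 (by omega)
    · let y : Fin n := ⟨x.1 - 1, by omega⟩
      by_cases h1 : C x = C y
      · by_cases h2 : C' x = C' y
        · refine ⟨y, ?_, ?_⟩
          · rw [Finset.mem_union]; left
            have hy0 : y.1 % 2 = 0 := by simp only [y]; omega
            simp only [Finset.mem_filter, Finset.mem_univ, true_and, P, hy0, if_true]
            intro z hz
            have : z = x := Fin.ext (by simp only [y] at hz; omega)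
            rw [this]; exact h1.symm
          · rw [← h1, ← h2]; exact hx
        · refine ⟨x, ?_, hx⟩
          rw [Finset.mem_union]; right
          simp only [Finset.mem_filter, Finset.mem_univ, true_and, P, hev, if_false]
          intro z hz
          have : z = y := Fin.ext (by simp only [y]; omega)
          rw [this]; exact h2
      · refine ⟨x, ?_, hx⟩
        rw [Finset.mem_union]; left
        simp only [Finset.mem_filter, Finset.mem_univ, true_and, P, hev, if_false]
        intro z hz
        have : z = y := Fin.ext (by simp only [y]; omega)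
        rw [this]; exact h1
  · intro C _
    have hinj : Set.InjOn (fun x : Fin n => x.1 / 2) (Finset.univ.filter (P C) : Finset (Fin n)) := by
      intro x hx y hy hxy
      simp only [Finset.coe_filter, Finset.mem_univ, true_and, Set.mem_ofPred_eq, P] at hx hy
      simp only at hxy
      by_contra hne
      have hne' : x.1 ≠ y.1 := fun h => hne (Fin.ext h)
      -- one is even, the other is its successor
      rcases Nat.lt_or_gt_of_ne hne' with h | h
      · have hx0 : x.1 % 2 = 0 := by omega
        have hy1 : ¬ y.1 % 2 = 0 := by omega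
        simp only [hx0, if_true] at hx
        simp only [hy1, if_false] at hy
        exact hy x (by omega) (hx y (by omega)).symm
      · have hy0 : y.1 % 2 = 0 := by omega
        have hx1 : ¬ x.1 % 2 = 0 := by omega
        simp only [hy0, if_true] at hy
        simp only [hx1, if_false] at hx
        exact hx y (by omega) (hy x (by omega)).symm
    have := Finset.card_le_card_of_injOn (fun x : Fin n => x.1 / 2)
      (s := Finset.univ.filter (P C)) (t := Finset.range ((n + 1) / 2))
      (by intro x _; simp only [Finset.coe_range, Set.mem_Iio]; omega) hinj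
    simpa using this

/-- Upper bound on teachable classes. -/
lemma card_upper {n d : ℕ} (hn : 2 * d ≤ n + 1) (hd : 1 ≤ d) {𝒞 : Finset (Concept n)}
    (h : Teachable 𝒞 d) : 𝒞.card * (2 * d).choose d ≤ 4 ^ d * n.choose d := by
  classical
  rcases Nat.lt_or_ge n (2 * d) with hlt | hge
  · have hn' : n = 2 * d - 1 := by omega
    have h1 : 𝒞.card ≤ 2 ^ n := by
      have := Finset.card_le_univ 𝒞
      simpa using this
    have h2 : (2 * d).choose d = 2 * n.choose d := by
      obtain ⟨e, rfl⟩ : ∃ e, d = e + 1 := ⟨d - 1, by omega⟩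
      subst hn'
      have h3 : 2 * (e + 1) - 1 = 2 * e + 1 := by omega
      rw [h3, show 2 * (e + 1) = (2 * e + 1) + 1 by ring, Nat.choose_succ_succ' (2 * e + 1) e]
      have : (2 * e + 1).choose (e + 1) = (2 * e + 1).choose e := Nat.choose_symm_half e
      omega
    have h3 : 2 * 2 ^ n = 4 ^ d := by
      rw [show (4 : ℕ) = 2 ^ 2 by norm_num, ← pow_mul, ← pow_succ']
      congr 1
      omega
    calc 𝒞.card * (2 * d).choose d ≤ 2 ^ n * (2 * n.choose d) := by
          rw [h2]; exact Nat.mul_le_mul_right _ h1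
      _ = (2 * 2 ^ n) * n.choose d := by ring
      _ = 4 ^ d * n.choose d := by rw [h3]
  · obtain ⟨T0, hT0, hc0⟩ := h
    -- enlarge the teaching sets to size exactly `d`
    have hext : ∀ C : Concept n, ∃ t : Finset (Fin n), C ∈ 𝒞 → T0 C ⊆ t ∧ t.card = d := by
      intro C
      by_cases hC : C ∈ 𝒞
      · obtain ⟨t, ht, htc⟩ := Finset.exists_superset_card_eq (hc0 C hC)
          (by simp; omega : d ≤ Fintype.card (Fin n))
        exact ⟨t, fun _ => ⟨ht, htc⟩⟩
      · exact ⟨∅, fun h => absurd h hC⟩
    choose T hTs using hext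
    have hT : IsNCTeacher 𝒞 T := by
      intro C hC C' hC' hne
      obtain ⟨x, hx, hxx⟩ := hT0 C hC C' hC' hne
      refine ⟨x, ?_, hxx⟩
      rw [Finset.mem_union] at hx ⊢
      rcases hx with hx | hx
      · exact Or.inl ((hTs C hC).1 hx)
      · exact Or.inr ((hTs C' hC').1 hx)
    -- double counting
    have hleft : ∑ X ∈ Finset.powersetCard (2 * d) (Finset.univ : Finset (Fin n)),
        (𝒞.filter fun C => T C ⊆ X).card = 𝒞.card * (n - d).choose d := by
      simp only [Finset.card_eq_sum_ones, Finset.sum_filter]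
      rw [Finset.sum_comm]
      have : ∀ C ∈ 𝒞, (∑ X ∈ Finset.powersetCard (2 * d) (Finset.univ : Finset (Fin n)),
          if T C ⊆ X then 1 else 0) = (n - d).choose d := by
        intro C hC
        have hTc := (hTs C hC).2
        rw [← Finset.sum_filter, ← Finset.card_eq_sum_ones,
          Finset.card_filter_powersetCard_subset (T C) Finset.univ (2 * d) (Finset.subset_univ _)
            (by omega), hTc]
        simp only [Finset.card_univ, Fintype.card_fin]
        congr 1
        omega
      rw [Finset.sum_congr rfl this]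
      simp
    have hright : ∀ X ∈ Finset.powersetCard (2 * d) (Finset.univ : Finset (Fin n)),
        (𝒞.filter fun C => T C ⊆ X).card ≤ 4 ^ d := by
      intro X hX
      have hXc : X.card = 2 * d := (Finset.mem_powersetCard.mp hX).2
      have hinj : Set.InjOn (fun C : Concept n => X.filter fun x => C x = true)
          (𝒞.filter fun C => T C ⊆ X : Finset (Concept n)) := by
        intro C hC C' hC' heq
        simp only [Finset.coe_filter, Set.mem_ofPred_eq] at hC hC'
        by_contra hne
        obtain ⟨x, hx, hxx⟩ := hT C hC.1 C' hC'.1 hne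
        have hxX : x ∈ X := by
          rcases Finset.mem_union.mp hx with h | h
          · exact hC.2 h
          · exact hC'.2 h
        apply hxx
        have h1 : x ∈ (X.filter fun x => C x = true) ↔ x ∈ (X.filter fun x => C' x = true) := by
          simp only at heq
          rw [heq]
        simp only [Finset.mem_filter, hxX, true_and] at h1
        cases hCx : C x <;> cases hCx' : C' x <;> simp_all
      have := Finset.card_le_card_of_injOn (fun C : Concept n => X.filter fun x => C x = true)
        (s := 𝒞.filter fun C => T C ⊆ X) (t := X.powerset)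
        (by
          intro C _
          simp only [Finset.mem_coe, Finset.mem_powerset]
          exact Finset.filter_subset _ _) hinj
      rw [Finset.card_powerset, hXc] at this
      calc _ ≤ 2 ^ (2 * d) := this
        _ = 4 ^ d := by rw [pow_mul]; norm_num
    have hmain : 𝒞.card * (n - d).choose d ≤ n.choose (2 * d) * 4 ^ d := by
      rw [← hleft]
      calc _ ≤ ∑ X ∈ Finset.powersetCard (2 * d) (Finset.univ : Finset (Fin n)), 4 ^ d :=
            Finset.sum_le_sum hright
        _ = n.choose (2 * d) * 4 ^ d := by simp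
    have hch : n.choose (2 * d) * (2 * d).choose d = n.choose d * (n - d).choose d := by
      have := Nat.choose_mul (n := n) (k := 2 * d) (s := d) (by omega)
      rw [this]
      congr 2
      omega
    have hpos : 0 < (n - d).choose d := Nat.choose_pos (by omega)
    have : (𝒞.card * (2 * d).choose d) * (n - d).choose d ≤
        (4 ^ d * n.choose d) * (n - d).choose d := by
      calc (𝒞.card * (2 * d).choose d) * (n - d).choose d
          = (𝒞.card * (n - d).choose d) * (2 * d).choose d := by ring
        _ ≤ (n.choose (2 * d) * 4 ^ d) * (2 * d).choose d := Nat.mul_le_mul_right _ hmain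
        _ = 4 ^ d * (n.choose (2 * d) * (2 * d).choose d) := by ring
        _ = 4 ^ d * (n.choose d * (n - d).choose d) := by rw [hch]
        _ = (4 ^ d * n.choose d) * (n - d).choose d := by ring
    exact Nat.le_of_mul_le_mul_right this hpos

/-- The concept whose indicator sequence changes its value exactly at the elements of `S`; its
value before the first element of `S` is `b`. -/
def alt {n : ℕ} (S : Finset (Fin n)) (b : Bool) : Concept n := fun x =>
  xor b (decide ((S.filter (· ≤ x)).card % 2 = 1))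

lemma alt_step {n : ℕ} (S : Finset (Fin n)) (b : Bool) {v u : Fin n} (hvu : v < u)
    (hmid : ∀ w, v < w → w < u → w ∉ S) :
    (alt S b u ≠ alt S b v) ↔ u ∈ S := by
  classical
  by_cases hu : u ∈ S
  · have h1 : S.filter (· ≤ u) = insert u (S.filter (· ≤ v)) := by
      ext w
      simp only [Finset.mem_filter, Finset.mem_insert]
      constructor
      · rintro ⟨hw, hwu⟩
        rcases hwu.lt_or_eq with h | h
        · right
          refine ⟨hw, ?_⟩
          by_contra hvw
          exact hmid w (not_le.mp hvw) h hw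
        · exact Or.inl h
      · rintro (h | ⟨hw, hwv⟩)
        · subst h; exact ⟨hu, le_rfl⟩
        · exact ⟨hw, hwv.trans hvu.le⟩
    have h2 : u ∉ S.filter (· ≤ v) := by
      simp only [Finset.mem_filter, not_and, not_le]
      intro _; exact hvu
    simp only [hu, iff_true, alt, h1, Finset.card_insert_of_notMem h2]
    intro h
    rcases Nat.mod_two_eq_zero_or_one (S.filter (· ≤ v)).card with h3 | h3
    · have h4 : ((S.filter (· ≤ v)).card + 1) % 2 = 1 := by omega
      rw [h3, h4] at h
      revert h; cases b <;> decide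
    · have h4 : ((S.filter (· ≤ v)).card + 1) % 2 = 0 := by omega
      rw [h3, h4] at h
      revert h; cases b <;> decide
  · have h1 : S.filter (· ≤ u) = S.filter (· ≤ v) := by
      ext w
      simp only [Finset.mem_filter]
      constructor
      · rintro ⟨hw, hwu⟩
        refine ⟨hw, ?_⟩
        by_contra hvw
        rcases hwu.lt_or_eq with h | h
        · exact hmid w (not_le.mp hvw) h hw
        · subst h; exact hu hw
      · rintro ⟨hw, hwv⟩
        exact ⟨hw, hwv.trans hvu.le⟩
    simp only [hu, iff_false, not_not, alt, h1]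

/-- An element of `S \ S'` at which, and at the elements of `S ∪ S'` before it, the two sequences
agree, is the least element of `S ∪ S'`. -/
lemma alt_least {n : ℕ} {S S' : Finset (Fin n)} {b b' : Bool}
    (hag : ∀ x ∈ S ∪ S', alt S b x = alt S' b' x) {u : Fin n} (hu : u ∈ S) (hu' : u ∉ S') :
    ∀ w ∈ S ∪ S', u ≤ w := by
  classical
  by_contra hcon
  push Not at hcon
  obtain ⟨w, hw, hwu⟩ := hcon
  -- the last element of the union before `u`
  have hne : ((S ∪ S').filter (· < u)).Nonempty := ⟨w, by simp [Finset.mem_filter, hwu]; simpa using hw⟩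
  obtain ⟨v, hv, hvmax⟩ := Finset.exists_max_image _ id hne
  simp only [Finset.mem_filter, id] at hv hvmax
  have hmid : ∀ z, v < z → z < u → z ∉ S ∪ S' := by
    intro z hvz hzu hz
    exact absurd (hvmax z ⟨hz, hzu⟩) (not_le.mpr hvz)
  have h1 := alt_step S b hv.2 (fun z hz1 hz2 hz3 => hmid z hz1 hz2 (Finset.mem_union_left _ hz3))
  have h2 := alt_step S' b' hv.2
    (fun z hz1 hz2 hz3 => hmid z hz1 hz2 (Finset.mem_union_right _ hz3))
  have h3 := hag u (Finset.mem_union_left _ hu)
  have h4 := hag v hv.1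
  have h5 : alt S b u ≠ alt S b v := h1.mpr hu
  have h6 : ¬ (alt S' b' u ≠ alt S' b' v) := fun h => hu' (h2.mp h)
  apply h6
  rw [← h3, ← h4]
  exact h5

lemma alt_inj {n : ℕ} {S S' : Finset (Fin n)} {b b' : Bool} (hc : S.card = S'.card)
    (hS : S.Nonempty) (hag : ∀ x ∈ S ∪ S', alt S b x = alt S' b' x) : S = S' ∧ b = b' := by
  classical
  have hag' : ∀ x ∈ S' ∪ S, alt S' b' x = alt S b x := by
    intro x hx
    exact (hag x (by rwa [Finset.union_comm])).symm
  have h1 : S = S' := by
    by_contra hne
    -- some element of `S` is not in `S'`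
    have h2 : ¬ S ⊆ S' := fun h => hne (Finset.eq_of_subset_of_card_le h hc.ge)
    have h3 : ¬ S' ⊆ S := fun h => hne (Finset.eq_of_subset_of_card_le h hc.le).symm
    obtain ⟨u, hu, hu'⟩ := Finset.not_subset.mp h2
    obtain ⟨w, hw, hw'⟩ := Finset.not_subset.mp h3
    have h4 := alt_least hag hu hu' w (Finset.mem_union_right _ hw)
    have h5 := alt_least hag' hw hw' u (Finset.mem_union_right _ hu)
    have : u = w := le_antisymm h4 h5
    subst this
    exact hw' hu
  refine ⟨h1, ?_⟩
  subst h1
  obtain ⟨x, hx⟩ := hS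
  have := hag x (Finset.mem_union_left _ hx)
  simp only [alt] at this
  revert this
  generalize (decide ((S.filter (· ≤ x)).card % 2 = 1)) = c
  cases b <;> cases b' <;> cases c <;> simp

/-- The class of all sequences `alt S b` with `|S| = d`. -/
lemma lower_class {n d : ℕ} (hd : 1 ≤ d) :
    ∃ 𝒞 : Finset (Concept n), Teachable 𝒞 d ∧ 𝒞.card = 2 * n.choose d := by
  classical
  let I : Finset (Finset (Fin n) × Bool) :=
    (Finset.powersetCard d (Finset.univ : Finset (Fin n))) ×ˢ (Finset.univ : Finset Bool)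
  have hI : ∀ p ∈ I, p.1.card = d := by
    intro p hp
    exact (Finset.mem_powersetCard.mp (Finset.mem_product.mp hp).1).2
  have hinj : Set.InjOn (fun p : Finset (Fin n) × Bool => alt p.1 p.2) I := by
    intro p hp q hq heq
    have h1 := hI p hp
    have h2 := hI q hq
    have hne : p.1.Nonempty := Finset.card_pos.mp (by omega)
    obtain ⟨h3, h4⟩ := alt_inj (b := p.2) (b' := q.2) (h1.trans h2.symm) hne
      (fun x _ => congrFun heq x)
    exact Prod.ext h3 h4
  refine ⟨I.image fun p => alt p.1 p.2, ?_, ?_⟩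
  · refine ⟨fun C => if h : ∃ p ∈ I, alt p.1 p.2 = C then h.choose.1 else ∅, ?_, ?_⟩
    · intro C hC C' hC' hne
      rw [Finset.mem_image] at hC hC'
      have hCs := hC.choose_spec
      have hCs' := hC'.choose_spec
      simp only [hC, hC', dite_true]
      by_contra hcon
      push Not at hcon
      have h1 := hI _ hCs.1
      have h2 := hI _ hCs'.1
      have hne' : (hC.choose).1.Nonempty := Finset.card_pos.mp (by omega)
      obtain ⟨h3, h4⟩ := alt_inj (b := hC.choose.2) (b' := hC'.choose.2) (h1.trans h2.symm) hne'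
        (fun x hx => by
          have := hcon x hx
          rw [hCs.2, hCs'.2]
          exact this)
      apply hne
      rw [← hCs.2, ← hCs'.2, h3, h4]
    · intro C hC
      rw [Finset.mem_image] at hC
      simp only [hC, dite_true]
      exact (hI _ hC.choose_spec.1).le
  · rw [Finset.card_image_of_injOn hinj]
    simp [I, mul_comm]

/-- A clash-free indexed family gives a teachable class of the same size. -/
lemma teachable_of_family {n d : ℕ} {I : Type} [Fintype I] (F : I → Concept n)
    (S : I → Finset (Fin n)) (hS : ∀ p, (S p).card ≤ d)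
    (h : ∀ p q, p ≠ q → ∃ x ∈ S p ∪ S q, F p x ≠ F q x) :
    ∃ 𝒞 : Finset (Concept n), Teachable 𝒞 d ∧ 𝒞.card = Fintype.card I := by
  classical
  have hinj : Function.Injective F := by
    intro p q hpq
    by_contra hne
    obtain ⟨x, _, hx⟩ := h p q hne
    exact hx (congrFun hpq x)
  refine ⟨Finset.univ.image F, ?_, ?_⟩
  · refine ⟨fun C => if h : ∃ p, F p = C then S h.choose else ∅, ?_, ?_⟩
    · intro C hC C' hC' hne
      have hC1 : ∃ p, F p = C := by simpa using hC
      have hC2 : ∃ p, F p = C' := by simpa using hC'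
      simp only [hC1, hC2, dite_true]
      have h1 := hC1.choose_spec
      have h2 := hC2.choose_spec
      have h3 : hC1.choose ≠ hC2.choose := by
        intro h4
        apply hne
        rw [← h1, ← h2, h4]
      obtain ⟨x, hx, hxx⟩ := h _ _ h3
      refine ⟨x, hx, ?_⟩
      rw [h1, h2] at hxx
      exact hxx
    · intro C hC
      have hC1 : ∃ p, F p = C := by simpa using hC
      simp only [hC1, dite_true]
      exact hS _
  · rw [Finset.card_image_of_injective _ hinj, Finset.card_univ]

/-- Teaching sets may be enlarged to have size exactly `d`. -/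
lemma Teachable.exact {n d : ℕ} {𝒞 : Finset (Concept n)} (h : Teachable 𝒞 d) (hdn : d ≤ n) :
    ∃ T : Concept n → Finset (Fin n), IsNCTeacher 𝒞 T ∧ ∀ C ∈ 𝒞, (T C).card = d := by
  classical
  obtain ⟨T0, hT0, hc0⟩ := h
  have hext : ∀ C : Concept n, ∃ t : Finset (Fin n), C ∈ 𝒞 → T0 C ⊆ t ∧ t.card = d := by
    intro C
    by_cases hC : C ∈ 𝒞
    · obtain ⟨t, ht, htc⟩ := Finset.exists_superset_card_eq (hc0 C hC)
        (by simp; omega : d ≤ Fintype.card (Fin n))
      exact ⟨t, fun _ => ⟨ht, htc⟩⟩
    · exact ⟨∅, fun h => absurd h hC⟩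
  choose T hTs using hext
  refine ⟨T, ?_, fun C hC => (hTs C hC).2⟩
  intro C hC C' hC' hne
  obtain ⟨x, hx, hxx⟩ := hT0 C hC C' hC' hne
  refine ⟨x, ?_, hxx⟩
  rw [Finset.mem_union] at hx ⊢
  rcases hx with hx | hx
  · exact Or.inl ((hTs C hC).1 hx)
  · exact Or.inr ((hTs C' hC').1 hx)

/-- Blow-up: replace every point by a block of `t` points. -/
lemma blow_up {m d t : ℕ} (hdm : d ≤ m) {𝒞 : Finset (Concept m)} (h : Teachable 𝒞 d) :
    ∃ 𝒟 : Finset (Concept (m * t)), Teachable 𝒟 d ∧ 𝒟.card = t ^ d * 𝒞.card := by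
  classical
  obtain ⟨T, hT, hc⟩ := h.exact hdm
  let e : Fin m × Fin t ≃ Fin (m * t) := finProdFinEquiv
  let I : Type := Σ C : {C // C ∈ 𝒞}, ({i // i ∈ T C.1} → Fin t)
  let F : I → Concept (m * t) := fun p j =>
    if h : (e.symm j).1 ∈ T p.1.1 then
      (if p.2 ⟨(e.symm j).1, h⟩ ≤ (e.symm j).2 then p.1.1 (e.symm j).1 else !(p.1.1 (e.symm j).1))
    else p.1.1 (e.symm j).1
  let S : I → Finset (Fin (m * t)) := fun p =>
    Finset.univ.image fun i : {i // i ∈ T p.1.1} => e (i.1, p.2 i)
  have hSc : ∀ p, (S p).card ≤ d := by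
    intro p
    refine Finset.card_image_le.trans ?_
    rw [Finset.card_univ, Fintype.card_coe, hc _ p.1.2]
  have hFmem : ∀ (p : I) (i : Fin m) (y : Fin t) (hi : i ∈ T p.1.1),
      F p (e (i, y)) = if p.2 ⟨i, hi⟩ ≤ y then p.1.1 i else !(p.1.1 i) := by
    intro p i y hi
    simp [F, hi]
  have hFnot : ∀ (p : I) (i : Fin m) (y : Fin t) (_ : i ∉ T p.1.1), F p (e (i, y)) = p.1.1 i := by
    intro p i y hi
    simp [F, hi]
  have hSmem : ∀ (p : I) (i : Fin m) (hi : i ∈ T p.1.1), e (i, p.2 ⟨i, hi⟩) ∈ S p := by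
    intro p i hi
    exact Finset.mem_image.mpr ⟨⟨i, hi⟩, Finset.mem_univ _, rfl⟩
  -- if the concepts differ at a taught point `i` of `p`, the blown up ones differ
  have key : ∀ (p q : I) (i : Fin m) (_ : i ∈ T p.1.1) (_ : p.1.1 i ≠ q.1.1 i),
      ∃ x ∈ S p ∪ S q, F p x ≠ F q x := by
    intro p q i hi hne
    by_cases hq : i ∈ T q.1.1
    · rcases le_total (p.2 ⟨i, hi⟩) (q.2 ⟨i, hq⟩) with hle | hle
      · refine ⟨e (i, q.2 ⟨i, hq⟩), Finset.mem_union_right _ (hSmem q i hq), ?_⟩
        rw [hFmem p i _ hi, hFmem q i _ hq]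
        simpa [hle] using hne
      · refine ⟨e (i, p.2 ⟨i, hi⟩), Finset.mem_union_left _ (hSmem p i hi), ?_⟩
        rw [hFmem p i _ hi, hFmem q i _ hq]
        simpa [hle] using hne
    · refine ⟨e (i, p.2 ⟨i, hi⟩), Finset.mem_union_left _ (hSmem p i hi), ?_⟩
      rw [hFmem p i _ hi, hFnot q i _ hq]
      simpa using hne
  obtain ⟨𝒟, h𝒟, hcard⟩ := teachable_of_family (d := d) F S hSc (by
    intro p q hpq
    by_cases hC : p.1 = q.1
    · obtain ⟨C, x⟩ := p
      obtain ⟨C', x'⟩ := q
      simp only at hC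
      subst hC
      have hx : x ≠ x' := fun h => hpq (by rw [h])
      obtain ⟨i, hi⟩ := Function.ne_iff.mp hx
      rcases lt_or_gt_of_ne hi with hlt | hlt
      · refine ⟨e (i.1, x i), Finset.mem_union_left _ (hSmem ⟨C, x⟩ i.1 i.2), ?_⟩
        rw [hFmem ⟨C, x⟩ i.1 _ i.2, hFmem ⟨C, x'⟩ i.1 _ i.2]
        simp [hlt]
      · refine ⟨e (i.1, x' i), Finset.mem_union_right _ (hSmem ⟨C, x'⟩ i.1 i.2), ?_⟩
        rw [hFmem ⟨C, x⟩ i.1 _ i.2, hFmem ⟨C, x'⟩ i.1 _ i.2]
        simp [hlt]
    · have hne : p.1.1 ≠ q.1.1 := fun h => hC (Subtype.ext h)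
      obtain ⟨i, hi, hii⟩ := hT p.1.1 p.1.2 q.1.1 q.1.2 hne
      rcases Finset.mem_union.mp hi with h1 | h1
      · exact key p q i h1 hii
      · obtain ⟨x, hx, hxx⟩ := key q p i h1 hii.symm
        exact ⟨x, by rwa [Finset.union_comm], hxx.symm⟩)
  refine ⟨𝒟, h𝒟, ?_⟩
  rw [hcard]
  have : Fintype.card I = ∑ C : {C // C ∈ 𝒞}, t ^ d := by
    rw [Fintype.card_sigma]
    refine Finset.sum_congr rfl fun C _ => ?_
    rw [Fintype.card_fun, Fintype.card_fin, Fintype.card_coe, hc _ C.2]
  rw [this]
  simp [mul_comm]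

/-- `M_NC(n, d)`: the largest cardinality of a concept class over `[n]` whose no-clash teaching
dimension is exactly `d`. -/
noncomputable def MNC (n d : ℕ) : ℕ :=
  sSup {k | ∃ 𝒞 : Finset (Concept n), NCTD 𝒞 = d ∧ 𝒞.card = k}

lemma exists_max {n d : ℕ} (hd : 1 ≤ d) (hn : 2 * d ≤ n + 1) :
    IsGreatest {k | ∃ 𝒞 : Finset (Concept n), NCTD 𝒞 = d ∧ 𝒞.card = k} (MNC n d) ∧
    (∀ 𝒟 : Finset (Concept n), Teachable 𝒟 d → 𝒟.card ≤ MNC n d) ∧
    ∃ 𝒞 : Finset (Concept n), Teachable 𝒞 d ∧ 𝒞.card = MNC n d := by
  classical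
  obtain ⟨𝒞₀, hT₀, hc₀⟩ := lower_class (n := n) hd
  obtain ⟨𝒞, h𝒞, hmax⟩ := Finset.exists_max_image
    (Finset.univ.filter fun 𝒟 : Finset (Concept n) => Teachable 𝒟 d) Finset.card
    ⟨𝒞₀, by simp [hT₀]⟩
  simp only [Finset.mem_filter, Finset.mem_univ, true_and] at h𝒞 hmax
  have hle : NCTD 𝒞 ≤ d := (nctd_le_iff 𝒞 d).mpr h𝒞
  have hge : d ≤ NCTD 𝒞 := by
    by_contra hlt
    push Not at hlt
    by_cases huniv : 𝒞 = Finset.univ
    · have := cube_lower (n := n) (k := NCTD 𝒞) (by
        rw [← huniv]; exact (nctd_le_iff 𝒞 _).mp le_rfl)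
      omega
    · obtain ⟨D, hD⟩ : ∃ D, D ∉ 𝒞 := by
        by_contra hall
        push Not at hall
        exact huniv (Finset.eq_univ_iff_forall.mpr hall)
      have h1 : Teachable 𝒞 (NCTD 𝒞) := (nctd_le_iff 𝒞 _).mp le_rfl
      have h2 := (h1.addOne D).mono (show NCTD 𝒞 + 1 ≤ d by omega)
      have h3 := hmax _ h2
      rw [Finset.card_insert_of_notMem hD] at h3
      omega
  have heq : NCTD 𝒞 = d := le_antisymm hle hge
  have hgr : IsGreatest {k | ∃ 𝒞 : Finset (Concept n), NCTD 𝒞 = d ∧ 𝒞.card = k} 𝒞.card := by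
    refine ⟨⟨𝒞, heq, rfl⟩, ?_⟩
    rintro k ⟨𝒟, h𝒟, rfl⟩
    exact hmax 𝒟 ((nctd_le_iff 𝒟 d).mp h𝒟.le)
  have hM : MNC n d = 𝒞.card := hgr.csSup_eq
  rw [hM]
  exact ⟨hgr, hmax, 𝒞, h𝒞, rfl⟩

/-- The ratio of `M_NC(n, d)` and `binom(n, d)` is nonincreasing in `n`. -/
lemma mnc_anti {m n d : ℕ} (hd : 1 ≤ d) (hm : 2 * d ≤ m + 1) (hmn : m ≤ n) :
    MNC n d * m.choose d ≤ MNC m d * n.choose d := by
  classical
  obtain ⟨_, _, 𝒞, h𝒞, hcard⟩ := exists_max (n := n) hd (by omega)
  obtain ⟨_, hmax, _⟩ := exists_max (n := m) hd hm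
  obtain ⟨T, hT, hTs⟩ := h𝒞.exact (by omega)
  rw [← hcard]
  have hleft : ∑ X ∈ Finset.powersetCard m (Finset.univ : Finset (Fin n)),
      (𝒞.filter fun C => T C ⊆ X).card = 𝒞.card * (n - d).choose (m - d) := by
    simp only [Finset.card_eq_sum_ones, Finset.sum_filter]
    rw [Finset.sum_comm]
    have : ∀ C ∈ 𝒞, (∑ X ∈ Finset.powersetCard m (Finset.univ : Finset (Fin n)),
        if T C ⊆ X then 1 else 0) = (n - d).choose (m - d) := by
      intro C hC
      have hTc := hTs C hC
      rw [← Finset.sum_filter, ← Finset.card_eq_sum_ones,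
        Finset.card_filter_powersetCard_subset (T C) Finset.univ m (Finset.subset_univ _)
          (by omega), hTc]
      simp only [Finset.card_univ, Fintype.card_fin]
    rw [Finset.sum_congr rfl this]
    simp
  have hright : ∀ X ∈ Finset.powersetCard m (Finset.univ : Finset (Fin n)),
      (𝒞.filter fun C => T C ⊆ X).card ≤ MNC m d := by
    intro X hX
    have hXc : X.card = m := (Finset.mem_powersetCard.mp hX).2
    let f : Fin m ↪o Fin n := X.orderEmbOfFin hXc
    have hrange : ∀ x ∈ X, ∃ z, f z = x := by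
      intro x hx
      have : x ∈ Set.range f := by
        rw [Finset.range_orderEmbOfFin]; exact hx
      exact this
    let I : Type := {C // C ∈ 𝒞.filter fun C => T C ⊆ X}
    obtain ⟨𝒟, h𝒟, hc𝒟⟩ := teachable_of_family (n := m) (d := d) (I := I)
      (fun C z => C.1 (f z)) (fun C => Finset.univ.filter fun z => f z ∈ T C.1)
      (by
        intro C
        have hC := Finset.mem_filter.mp C.2
        rw [← hTs C.1 hC.1]
        exact Finset.card_le_card_of_injOn f (by intro z hz; simpa using hz)
          (f.injective.injOn))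
      (by
        intro C C' hne
        have hC := Finset.mem_filter.mp C.2
        have hC' := Finset.mem_filter.mp C'.2
        have hne' : C.1 ≠ C'.1 := fun h => hne (Subtype.ext h)
        obtain ⟨x, hx, hxx⟩ := hT C.1 hC.1 C'.1 hC'.1 hne'
        have hxX : x ∈ X := by
          rcases Finset.mem_union.mp hx with h | h
          · exact hC.2 h
          · exact hC'.2 h
        obtain ⟨z, rfl⟩ := hrange x hxX
        refine ⟨z, ?_, hxx⟩
        rcases Finset.mem_union.mp hx with h | h
        · exact Finset.mem_union_left _ (by simp [h])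
        · exact Finset.mem_union_right _ (by simp [h]))
    have h1 := hmax 𝒟 h𝒟
    rw [hc𝒟] at h1
    have h2 : Fintype.card I = (𝒞.filter fun C => T C ⊆ X).card := Fintype.card_coe _
    omega
  have hmain : 𝒞.card * (n - d).choose (m - d) ≤ n.choose m * MNC m d := by
    rw [← hleft]
    calc _ ≤ ∑ X ∈ Finset.powersetCard m (Finset.univ : Finset (Fin n)), MNC m d :=
          Finset.sum_le_sum hright
      _ = n.choose m * MNC m d := by simp
  have hch : n.choose m * m.choose d = n.choose d * (n - d).choose (m - d) :=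
    Nat.choose_mul (n := n) (k := m) (s := d) (by omega)
  have hpos : 0 < (n - d).choose (m - d) := Nat.choose_pos (by omega)
  have : (𝒞.card * m.choose d) * (n - d).choose (m - d) ≤
      (MNC m d * n.choose d) * (n - d).choose (m - d) := by
    calc (𝒞.card * m.choose d) * (n - d).choose (m - d)
        = (𝒞.card * (n - d).choose (m - d)) * m.choose d := by ring
      _ ≤ (n.choose m * MNC m d) * m.choose d := Nat.mul_le_mul_right _ hmain
      _ = MNC m d * (n.choose m * m.choose d) := by ring
      _ = MNC m d * (n.choose d * (n - d).choose (m - d)) := by rw [hch]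
      _ = (MNC m d * n.choose d) * (n - d).choose (m - d) := by ring
  exact Nat.le_of_mul_le_mul_right this hpos

/-- For `n ≤ 2 d` the full cube is the largest class. -/
lemma mnc_cube {n d : ℕ} (hd : 1 ≤ d) (hn : 2 * d ≤ n + 1) (hn2 : n ≤ 2 * d) :
    MNC n d = 2 ^ n := by
  classical
  obtain ⟨_, hmax, 𝒞, _, hcard⟩ := exists_max (n := n) hd hn
  have hcube : Teachable (Finset.univ : Finset (Concept n)) d := (cube_upper n).mono (by omega)
  have h1 := hmax _ hcube
  have h2 : (Finset.univ : Finset (Concept n)).card = 2 ^ n := by simp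
  have h3 := Finset.card_le_univ 𝒞
  rw [← Finset.card_univ, h2] at h3
  omega

/-- **Bounds for `M_NC(n, d)`.**  Let `d ≥ 1`.  A class of no-clash teaching dimension `d` over
`[n]` exists iff `2 d ≤ n + 1`; then `M_NC(n, d)` is attained, is at least `2 * binom(n, d)` and at
most `4 ^ d * binom(n, d) / binom(2 d, d)`, with equality on the right for `n = 2 d - 1` and
`n = 2 d` (the full cube); the ratio `M_NC(n, d) / binom(n, d)` is nonincreasing in `n`, and
`M_NC(m t, d) ≥ t ^ d M_NC(m, d)`. -/
theorem result (d : ℕ) (hd : 1 ≤ d) :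
    (∀ n : ℕ, (∃ 𝒞 : Finset (Concept n), NCTD 𝒞 = d) ↔ 2 * d ≤ n + 1) ∧
    (∀ n : ℕ, 2 * d ≤ n + 1 →
      IsGreatest {k | ∃ 𝒞 : Finset (Concept n), NCTD 𝒞 = d ∧ 𝒞.card = k} (MNC n d) ∧
      2 * n.choose d ≤ MNC n d ∧
      MNC n d * (2 * d).choose d ≤ 4 ^ d * n.choose d) ∧
    (MNC (2 * d - 1) d = 2 ^ (2 * d - 1) ∧ MNC (2 * d) d = 2 ^ (2 * d)) ∧
    (∀ m n : ℕ, 2 * d ≤ m + 1 → m ≤ n → MNC n d * m.choose d ≤ MNC m d * n.choose d) ∧
    (∀ m t : ℕ, 2 * d ≤ m + 1 → 1 ≤ t → t ^ d * MNC m d ≤ MNC (m * t) d) := by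
  classical
  refine ⟨fun n => ⟨?_, fun hn => ?_⟩, fun n hn => ⟨(exists_max hd hn).1, ?_, ?_⟩,
    ⟨mnc_cube hd (by omega) (by omega), mnc_cube hd (by omega) le_rfl⟩,
    fun m n hm hmn => mnc_anti hd hm hmn, fun m t hm ht => ?_⟩
  · rintro ⟨𝒞, h𝒞⟩
    have h1 : Teachable 𝒞 ((n + 1) / 2) := (cube_upper n).subset (Finset.subset_univ _)
    have h2 := (nctd_le_iff 𝒞 _).mpr h1
    omega
  · obtain ⟨𝒞, h𝒞, _⟩ := (exists_max hd hn).1.1
    exact ⟨𝒞, h𝒞⟩
  · obtain ⟨𝒞₀, hT₀, hc₀⟩ := lower_class (n := n) hd
    rw [← hc₀]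
    exact (exists_max hd hn).2.1 𝒞₀ hT₀
  · obtain ⟨_, _, 𝒞, h𝒞, hcard⟩ := exists_max (n := n) hd hn
    rw [← hcard]
    exact card_upper hn hd h𝒞
  · obtain ⟨_, _, 𝒞, h𝒞, hcard⟩ := exists_max (n := m) hd hm
    obtain ⟨𝒟, h𝒟, hc𝒟⟩ := blow_up (t := t) (by omega) h𝒞
    rw [← hcard, ← hc𝒟]
    refine (exists_max (n := m * t) hd ?_).2.1 𝒟 h𝒟
    have : m * 1 ≤ m * t := Nat.mul_le_mul_left m ht
    omega

end Pool.Agent.Results.MP_4dbef5_lc.TwoSidedBounds
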